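import Pool.Agent.Y890.MV.TorSig
import Pool.Agent.Y785.MV.Osg
import Pool.Agent.HopfPinch.AnS1
import Pool.Agent.Y118.HP.Alg7

/-!
# Periods of hyperelliptic curves as functions of all branch points
-/

set_option autoImplicit false
set_option linter.unusedSectionVars false

open Complex Set MeasureTheory Filter Topology

namespace Pool.Agent.Y890.HE

open Pool.Agent.Y118.HP

variable {n : ℕ}

/-- configurations of complex branch points with increasing real parts -/
def Ord (n : ℕ) : Set (Fin (n + 1) → ℂ) := {e | ∀ i k, i < k → (e i).re < (e k).re}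

theorem Ord_open (n : ℕ) : IsOpen (Ord n) := by
  have h : Ord n = ⋂ i : Fin (n + 1), ⋂ k : Fin (n + 1), {e : Fin (n + 1) → ℂ | i < k → (e i).re < (e k).re} := by
    ext e
    simp [Ord]
  rw [h]
  refine isOpen_iInter_of_finite fun i => isOpen_iInter_of_finite fun k => ?_
  by_cases hik : i < k
  · simp only [hik, true_imp_iff]
    exact isOpen_lt (by fun_prop) (by fun_prop)
  · simp only [hik, false_imp_iff]
    exact isOpen_univ

theorem Ord_convex (n : ℕ) : Convex ℝ (Ord n) := by
  intro x hx y hy a b ha hb hab i k hik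
  have h1 := hx i k hik
  have h2 := hy i k hik
  simp only [Pi.add_apply, Pi.smul_apply, Complex.add_re, Complex.smul_re, smul_eq_mul]
  rcases eq_or_lt_of_le ha with h | h
  · rw [← h] at hab ⊢
    have : b = 1 := by linarith
    rw [this]
    linarith
  · nlinarith [mul_lt_mul_of_pos_left h1 h, mul_le_mul_of_nonneg_left h2.le hb]

/-- the real configurations -/
theorem Ord_real {e : Fin (n + 1) → ℝ} (he : StrictMono e) : (fun i => (e i : ℂ)) ∈ Ord n := by
  intro i k hik
  simpa using he hik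

theorem Ord_nonempty (n : ℕ) : (Ord n).Nonempty :=
  ⟨_, Ord_real (e := fun i => (i : ℝ)) (fun i k h => by
    show ((i : ℕ) : ℝ) < ((k : ℕ) : ℝ)
    exact_mod_cast h)⟩

theorem slit_of_re {z : ℂ} (h : 0 < z.re) : z ∈ slitPlane := mem_slitPlane_iff.2 (Or.inl h)

theorem seg_lt {e : Fin (n + 1) → ℂ} (he : e ∈ Ord n) {l : Fin n} {i : Fin (n + 1)} (hi : i < l.castSucc)
    {u : ℝ} (hu0 : 0 ≤ u) (hu1 : u ≤ 1) : seg (e l.castSucc) (e l.succ) u - e i ∈ slitPlane := by
  apply slit_of_re
  have h1 := he _ _ hi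
  have h2 := he _ _ (hi.trans Fin.castSucc_lt_succ)
  have h3 : (seg (e l.castSucc) (e l.succ) u - e i).re =
      (1 - u) * ((e l.castSucc).re - (e i).re) + u * ((e l.succ).re - (e i).re) := by
    unfold seg
    simp
    ring
  rw [h3]
  rcases eq_or_lt_of_le hu0 with h | h
  · rw [← h]
    simp
    linarith
  · have := mul_pos h (sub_pos.2 h2)
    nlinarith [mul_nonneg (sub_nonneg.2 hu1) (sub_pos.2 h1).le]

theorem seg_gt {e : Fin (n + 1) → ℂ} (he : e ∈ Ord n) {l : Fin n} {i : Fin (n + 1)} (hi : l.succ < i)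
    {u : ℝ} (hu0 : 0 ≤ u) (hu1 : u ≤ 1) : e i - seg (e l.castSucc) (e l.succ) u ∈ slitPlane := by
  apply slit_of_re
  have h1 := he _ _ ((Fin.castSucc_lt_succ (i := l)).trans hi)
  have h2 := he _ _ hi
  have h3 : (e i - seg (e l.castSucc) (e l.succ) u).re =
      (1 - u) * ((e i).re - (e l.castSucc).re) + u * ((e i).re - (e l.succ).re) := by
    unfold seg
    simp
    ring
  rw [h3]
  rcases eq_or_lt_of_le hu0 with h | h
  · rw [← h]
    simp
    linarith
  · have := mul_pos h (sub_pos.2 h2)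
    nlinarith [mul_nonneg (sub_nonneg.2 hu1) (sub_pos.2 h1).le]

/-- the integrand -/
noncomputable def KE (l : Fin n) (j : ℕ) (u : ℝ) (e : Fin (n + 1) → ℂ) : ℂ :=
  Y118.HP.ker e l j (seg (e l.castSucc) (e l.succ) u)

theorem continuousAt_KE (l : Fin n) (j : ℕ) {u : ℝ} (hu0 : 0 ≤ u) (hu1 : u ≤ 1) {e : Fin (n + 1) → ℂ}
    (he : e ∈ Ord n) : ContinuousAt (fun p : ℝ × (Fin (n + 1) → ℂ) => KE l j p.1 p.2) (u, e) := by
  unfold KE Y118.HP.ker
  have hseg : Continuous fun p : ℝ × (Fin (n + 1) → ℂ) => seg (p.2 l.castSucc) (p.2 l.succ) p.1 := by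
    unfold seg
    fun_prop
  refine (hseg.continuousAt.pow j).mul ?_
  refine tendsto_finsetProd _ fun i _ => ?_
  have hi : Continuous fun p : ℝ × (Fin (n + 1) → ℂ) => p.2 i := by fun_prop
  unfold fac
  split_ifs with h1 h2
  · exact ContinuousAt.cpow (hseg.continuousAt.sub hi.continuousAt) continuousAt_const (seg_lt he h1 hu0 hu1)
  · exact ContinuousAt.cpow (hi.continuousAt.sub hseg.continuousAt) continuousAt_const (seg_gt he h2 hu0 hu1)
  · exact continuousAt_const

theorem differentiableAt_KE (l : Fin n) (j : ℕ) {u : ℝ} (hu0 : 0 ≤ u) (hu1 : u ≤ 1) {e : Fin (n + 1) → ℂ}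
    (he : e ∈ Ord n) : DifferentiableAt ℂ (KE l j u) e := by
  unfold KE Y118.HP.ker
  have hd : ∀ k : Fin (n + 1), Differentiable ℂ fun e : Fin (n + 1) → ℂ => e k := fun k => by fun_prop
  have hseg : Differentiable ℂ fun e : Fin (n + 1) → ℂ => seg (e l.castSucc) (e l.succ) u := by
    unfold seg
    exact ((hd l.castSucc).const_mul _).add ((hd l.succ).const_mul _)
  refine (hseg.differentiableAt.pow j).mul ?_
  have H : ∀ i, DifferentiableAt ℂ (fun e : Fin (n + 1) → ℂ => fac e l i (seg (e l.castSucc) (e l.succ) u)) e := by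
    intro i
    unfold fac
    split_ifs with h1 h2
    · exact DifferentiableAt.cpow_const (hseg.differentiableAt.sub (hd i).differentiableAt) (seg_lt he h1 hu0 hu1)
    · exact DifferentiableAt.cpow_const ((hd i).differentiableAt.sub hseg.differentiableAt) (seg_gt he h2 hu0 hu1)
    · exact differentiableAt_const _
  exact (HasFDerivAt.finsetProd fun i _ => (H i).hasFDerivAt).differentiableAt

theorem differentiableOn_perC (l : Fin n) (j : ℕ) : DifferentiableOn ℂ (fun e => perC e l j) (Ord n) := by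
  have hpi : (0 : ℝ) ≤ Real.pi / 2 := by positivity
  have hcont : ContinuousOn (fun p : ℝ × (Fin (n + 1) → ℂ) => KE l j p.1 p.2) (Icc 0 1 ×ˢ Ord n) := by
    rintro ⟨u, z⟩ ⟨hu, hz⟩
    exact (continuousAt_KE l j hu.1 hu.2 hz).continuousWithinAt
  intro z0 hz0
  obtain ⟨r, hr, hball⟩ := Metric.nhds_basis_closedBall.mem_iff.1 ((Ord_open n).mem_nhds hz0)
  obtain ⟨M, hM⟩ := (isCompact_Icc.prod (isCompact_closedBall z0 r)).exists_bound_of_continuousOn
    (hcont.mono (prod_mono le_rfl hball))
  have hpt : ∀ z ∈ Ord n, Continuous fun θ : ℝ => 2 * KE l j (Real.sin θ ^ 2) z := by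
    intro z hz
    refine continuous_const.mul ?_
    rw [continuous_iff_continuousAt]
    intro θ
    have h1 := continuousAt_KE l j (sin_sq_mem θ).1 (sin_sq_mem θ).2 hz
    have h2 : ContinuousAt (fun θ : ℝ => (Real.sin θ ^ 2, z)) θ := by fun_prop
    exact ContinuousAt.comp (f := fun θ : ℝ => (Real.sin θ ^ 2, z))
      (g := fun p : ℝ × (Fin (n + 1) → ℂ) => KE l j p.1 p.2) h1 h2
  have key := Pool.Agent.HP.differentiableOn_integral
    (volume.restrict (Ioc 0 (Real.pi / 2))) (fun θ z => 2 * KE l j (Real.sin θ ^ 2) z) (Metric.ball z0 r)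
    Metric.isOpen_ball
    (fun z hz => (hpt z (hball (Metric.ball_subset_closedBall hz))).aestronglyMeasurable)
    (fun θ z hz => ((differentiableAt_KE l j (sin_sq_mem θ).1 (sin_sq_mem θ).2
        (hball (Metric.ball_subset_closedBall hz))).const_mul 2).differentiableWithinAt)
    (fun _ => 2 * M) (integrable_const _)
    (by
      intro θ z hz
      rw [norm_mul]
      have := hM (Real.sin θ ^ 2, z) ⟨sin_sq_mem θ, Metric.ball_subset_closedBall hz⟩
      simp only [norm_ofNat]
      linarith)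
  have h2 : DifferentiableAt ℂ (fun z => ∫ θ in Ioc 0 (Real.pi / 2), 2 * KE l j (Real.sin θ ^ 2) z) z0 :=
    (key z0 (Metric.mem_ball_self hr)).differentiableAt (Metric.isOpen_ball.mem_nhds (Metric.mem_ball_self hr))
  refine DifferentiableAt.differentiableWithinAt ?_
  have h3 : (fun z : Fin (n + 1) → ℂ => perC z l j) =
      fun z => ∫ θ in Ioc 0 (Real.pi / 2), 2 * KE l j (Real.sin θ ^ 2) z := by
    funext z
    unfold perC
    rw [intervalIntegral.integral_of_le hpi]
    rfl
  rw [h3]
  exact h2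

theorem perC_an (l : Fin n) (j : ℕ) : AnalyticOnNhd ℂ (fun e => perC e l j) (Ord n) :=
  Pool.Agent.Y785.MV.Osg.t _ _ (Ord_open n) _ (differentiableOn_perC l j)

end Pool.Agent.Y890.HE
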