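import Pool.Agent.Y890.HE.TorHM
import Pool.Agent.H340R2.LW

/-!
# From the torsor with multiplier `π` to the full torsor
-/

set_option autoImplicit false
set_option linter.unusedSectionVars false

open Complex Set Filter Topology Matrix NumberField

namespace Pool.Agent.Y890.HE

open Pool.Agent.Y118.HP
open Pool.Agent.Y890.MV (pj gl gl_self gl_ne pj_gl_self pj_gl_ne gl_pj USig TSig)

variable {ι : Type} [Fintype ι] [DecidableEq ι]

theorem dense_prod {n : ι → ℕ} (hn : ∀ i, Even (n i)) (P : MvPolynomial (Σ i, Fin (n i) × Fin (n i)) ℂ)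
    (hP : ∀ g : ∀ i, Matrix (Fin (n i)) (Fin (n i)) ℚ, (∀ i, g i ∈ SpS ℚ (n i)) →
      MvPolynomial.eval (fun q => ((g q.1).map (algebraMap ℚ ℂ)) q.2.1 q.2.2) P = 0)
    (g : ∀ i, Matrix (Fin (n i)) (Fin (n i)) ℂ) (hg : ∀ i, g i ∈ SpS ℂ (n i)) :
    MvPolynomial.eval (fun q => (g q.1) q.2.1 q.2.2) P = 0 := by
  classical
  have key : ∀ (A : Finset ι) (g : ∀ i, Matrix (Fin (n i)) (Fin (n i)) ℂ), (∀ i, g i ∈ SpS ℂ (n i)) →
      (∀ i, i ∉ A → ∃ h ∈ SpS ℚ (n i), g i = h.map (algebraMap ℚ ℂ)) →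
      MvPolynomial.eval (fun q => (g q.1) q.2.1 q.2.2) P = 0 := by
    intro A
    induction A using Finset.induction_on with
    | empty =>
      intro g _ hA
      choose h hh he using fun i => hA i (Finset.notMem_empty i)
      have h1 : g = fun i => (h i).map (algebraMap ℚ ℂ) := funext he
      rw [h1]
      exact hP h hh
    | insert j0 A hj0 ih =>
      intro g hg hA
      set P' : MvPolynomial (Fin (n j0) × Fin (n j0)) ℂ :=
        MvPolynomial.aeval (gl (fun q : (Σ i, Fin (n i) × Fin (n i)) => MvPolynomial.C (g q.1 q.2.1 q.2.2)) j0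
          (fun s => MvPolynomial.X s)) P with hP'
      have hev : ∀ h : Matrix (Fin (n j0)) (Fin (n j0)) ℂ, evM P' h =
          MvPolynomial.eval (fun q => (Function.update g j0 h q.1) q.2.1 q.2.2) P := by
        intro h
        have h1 : (MvPolynomial.eval (fun x : Fin (n j0) × Fin (n j0) => h x.1 x.2)).comp
            (MvPolynomial.aeval (R := ℂ)
              (gl (fun q : (Σ i, Fin (n i) × Fin (n i)) => MvPolynomial.C (g q.1 q.2.1 q.2.2)) j0
                (fun s => MvPolynomial.X s)) : MvPolynomial (Σ i, Fin (n i) × Fin (n i)) ℂ →ₐ[ℂ] _).toRingHom =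
            MvPolynomial.eval (fun q => (Function.update g j0 h q.1) q.2.1 q.2.2) := by
          refine MvPolynomial.ringHom_ext (fun b => ?_) ?_
          · simp [MvPolynomial.algebraMap_eq]
          · rintro ⟨j, s⟩
            by_cases hj : j = j0
            · subst hj
              simp [gl_self]
            · simp [gl_ne _ _ hj, Function.update_of_ne hj]
        exact congrArg (fun k => k P) h1
      have h2 := dense_rat (hn j0) P' (fun h hh => by
        rw [hev]
        refine ih _ (fun i => ?_) (fun i hi => ?_)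
        · by_cases hij : i = j0
          · subst hij
            rw [Function.update_self]
            exact SpS_map (algebraMap ℚ ℂ) hh
          · rw [Function.update_of_ne hij]
            exact hg i
        · by_cases hij : i = j0
          · subst hij
            rw [Function.update_self]
            exact ⟨h, hh, rfl⟩
          · rw [Function.update_of_ne hij]
            exact hA i (by simp [hij, hi])) (g j0) (hg j0)
      rw [hev, Function.update_eq_self] at h2
      exact h2
  exact key Finset.univ g hg fun i hi => absurd (Finset.mem_univ i) hi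

/-- `√π` is not algebraic over number fields -/
theorem sqrt_pi_trans {K : Type} [Field K] [NumberField K] (io : K →+* ℂ) (p : Polynomial K)
    (h : Polynomial.eval₂ io ((√Real.pi : ℝ) : ℂ) p = 0) : p = 0 := by
  by_contra hp
  let _ : Algebra K ℂ := io.toAlgebra
  have h1 : IsAlgebraic K ((√Real.pi : ℝ) : ℂ) := ⟨p, hp, h⟩
  have h2 : IsAlgebraic ℚ ((√Real.pi : ℝ) : ℂ) := IsAlgebraic.restrictScalars ℚ h1
  have h3 : IsAlgebraic ℚ (((√Real.pi : ℝ) : ℂ) ^ 2) := h2.pow 2
  have h4 : (((√Real.pi : ℝ)) : ℂ) ^ 2 = (Real.pi : ℂ) := by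
    rw [← Complex.ofReal_pow, Real.sq_sqrt Real.pi_pos.le]
  rw [h4] at h3
  exact Pool.Agent.H340R2.LW.transcendental_pi_complex h3

/-- two solutions of the equations with the same multiplier differ by a symplectic matrix -/
theorem tor_sp' {n : ℕ} (hn : Even n) {μ : ℂ} (hμ : μ ≠ 0) {Q A B : Matrix (Fin n) (Fin n) ℂ}
    (hA : A * Q * A.transpose = μ • jm ℂ n) (hB : B * Q * B.transpose = μ • jm ℂ n) :
    A * B⁻¹ ∈ SpS ℂ n ∧ A * B⁻¹ * B = A := by
  have hdet : B.det ≠ 0 := by
    intro h0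
    have h1 := congrArg Matrix.det hB
    rw [Matrix.det_mul, Matrix.det_mul, h0, zero_mul, zero_mul, Matrix.det_smul] at h1
    exact mul_ne_zero (pow_ne_zero _ hμ) (jm_det hn) h1.symm
  have hu : IsUnit B.det := isUnit_iff_ne_zero.2 hdet
  have h2 : B⁻¹ * B = 1 := nonsing_inv_mul B hu
  have h3 : B.transpose * (B⁻¹).transpose = 1 := by
    rw [← Matrix.transpose_mul, h2, Matrix.transpose_one]
  refine ⟨?_, by rw [Matrix.mul_assoc, h2, mul_one]⟩
  show A * B⁻¹ * jm ℂ n * (A * B⁻¹).transpose = jm ℂ n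
  have h4 : B⁻¹ * (μ • jm ℂ n) * (B⁻¹).transpose = Q := by
    calc B⁻¹ * (μ • jm ℂ n) * (B⁻¹).transpose
        = (B⁻¹ * B) * Q * (B.transpose * (B⁻¹).transpose) := by
          rw [← hB]; simp only [Matrix.mul_assoc]
      _ = _ := by rw [h2, h3, one_mul, mul_one]
  have h5 : μ • (A * B⁻¹ * jm ℂ n * (A * B⁻¹).transpose) = μ • jm ℂ n := by
    calc μ • (A * B⁻¹ * jm ℂ n * (A * B⁻¹).transpose)
        = A * (B⁻¹ * (μ • jm ℂ n) * (B⁻¹).transpose) * A.transpose := by
          rw [Matrix.transpose_mul, Matrix.mul_smul, Matrix.smul_mul, Matrix.mul_smul, Matrix.smul_mul]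
          simp only [Matrix.mul_assoc]
      _ = _ := by rw [h4, hA]
  have h6 := congrArg (fun M => μ⁻¹ • M) h5
  simpa only [smul_smul, inv_mul_cancel₀ hμ, one_smul] using h6

/-- a symplectic basis over the base field -/
theorem exists_U {n : ℕ} (hn : Even n) {K : Type} [Field K] (io : K →+* ℂ) (e : Fin (n + 1) → K)
    (he : (fun i => io (e i)) ∈ Ord n) : ∃ U : Matrix (Fin n) (Fin n) K,
      U.map io * (Qg n).map (MvPolynomial.eval fun i => io (e i)) * (U.map io).transpose = jm ℂ n := by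
  have h2K : (2 : K) ≠ 0 := by
    intro h
    have := congrArg io h
    rw [map_ofNat, map_zero] at this
    exact two_ne_zero this
  set Q : Matrix (Fin n) (Fin n) K := qm n (∏ i : Fin (n + 1), (Polynomial.X - Polynomial.C (e i))) with hQ
  have hQm : Q.map io = (Qg n).map (MvPolynomial.eval fun i => io (e i)) := by
    rw [Qg_eval]
    ext i j
    rw [Matrix.map_apply, hQ]
    unfold qm
    rw [Matrix.of_apply, Matrix.of_apply]
    have h5 : (∏ i : Fin (n + 1), (Polynomial.X - Polynomial.C (io (e i)))) =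
        (∏ i : Fin (n + 1), (Polynomial.X - Polynomial.C (e i))).map io := by
      rw [Polynomial.map_prod]
      refine Finset.prod_congr rfl fun i _ => ?_
      rw [Polynomial.map_sub, Polynomial.map_X, Polynomial.map_C]
    rw [h5, Polynomial.coeff_map]
    simp only [map_mul, map_div₀, map_sub, map_natCast, map_ofNat]
  have hdet : Q.det ≠ 0 := by
    intro h0
    have h1 := congrArg Matrix.det (legendreC hn he)
    have h2 : ((Qg n).map (MvPolynomial.eval fun i => io (e i))).det = 0 := by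
      have h3 : (Q.map io).det = io Q.det := (RingHom.map_det io Q).symm
      rw [← hQm, h3, h0, map_zero]
    rw [Matrix.det_mul, Matrix.det_mul, h2, mul_zero, zero_mul, Matrix.det_smul] at h1
    exact mul_ne_zero (pow_ne_zero _ (by exact_mod_cast Real.pi_ne_zero)) (jm_det hn) h1.symm
  have hT : Q.transpose = -Q := by
    ext1 i j
    rw [Matrix.transpose_apply, Matrix.neg_apply, hQ]
    unfold qm
    simp only [Matrix.of_apply]
    rw [show (j : ℕ) + (i : ℕ) + 2 = (i : ℕ) + (j : ℕ) + 2 by omega, ← neg_mul]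
    congr 1
    ring
  have hD : ∀ i, Q i i = 0 := by
    intro i
    rw [hQ]
    unfold qm
    simp
  obtain ⟨U, _, hU⟩ := Pool.Agent.Y122.HPDar.darboux Q (jm K n) hT hD hdet jm_transpose (fun i => jm_diag i)
    (by
      have h1 := jm_det (K := ℂ) hn
      intro h0
      apply h1
      rw [← jm_map io]
      have h3 : ((jm K n).map io).det = io (jm K n).det := (RingHom.map_det io _).symm
      rw [h3, h0, map_zero])
  refine ⟨U, ?_⟩
  rw [← hQm, ← Matrix.transpose_map, ← Matrix.map_mul, ← Matrix.map_mul, hU, jm_map]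

/-- **From the torsor with multiplier `π` to the full torsor.** -/
theorem full {n : ι → ℕ} (hn : ∀ i, Even (n i)) {K : Type} [Field K] [NumberField K] (io : K →+* ℂ)
    (e : (Σ i, Fin (n i + 1)) → K) (he : (fun j => io (e j)) ∈ USig (fun i => Ord (n i))) {δ h : ℕ}
    (c : ((Σ i, Fin (n i) × Fin (n i)) → Fin (δ + 1)) → Fin h → K)
    (H : ∀ Y ∈ TSig (fun i => TorH (n i)) (fun j => io (e j)),
      ∑ l, (∑ a : Fin h, (Real.pi : ℂ) ^ (a : ℕ) * io (c l a)) * ∏ y, Y y ^ (l y : ℕ) = 0)
    {μ : ℂ} (hμ : μ ≠ 0) (Y : (Σ i, Fin (n i) × Fin (n i)) → ℂ)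
    (hY : ∀ i, mt (pj Y i) * (Qg (n i)).map (MvPolynomial.eval (pj (fun j => io (e j)) i)) *
      (mt (pj Y i)).transpose = μ • jm ℂ (n i)) :
    ∑ l, (∑ a : Fin h, μ ^ (a : ℕ) * io (c l a)) * ∏ y, Y y ^ (l y : ℕ) = 0 := by
  classical
  choose U hU using fun i => exists_U (hn i) io (pj e i) (he i)
  obtain ⟨z, hz⟩ := IsAlgClosed.exists_pow_nat_eq μ (n := 2) two_pos
  have hz0 : z ≠ 0 := by
    rintro rfl
    apply hμ
    rw [← hz]
    norm_num
  have hzU : ∀ (z : ℂ) (i : ι), (z • (U i).map io) * (Qg (n i)).map (MvPolynomial.eval (pj (fun j => io (e j)) i)) *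
      (z • (U i).map io).transpose = (z ^ 2) • jm ℂ (n i) := by
    intro z i
    rw [Matrix.transpose_smul, Matrix.smul_mul, Matrix.mul_smul, Matrix.smul_mul, smul_smul, ← sq]
    congr 1
    exact hU i
  have h1 := fun i => tor_sp' (hn i) hμ (hY i) (by rw [← hz]; exact hzU z i)
  set g : ∀ i, Matrix (Fin (n i)) (Fin (n i)) ℂ := fun i => mt (pj Y i) * (z • (U i).map io)⁻¹ with hg
  have hmem : ∀ M : ∀ i, Matrix (Fin (n i)) (Fin (n i)) ℂ,
      (∀ i, M i * (Qg (n i)).map (MvPolynomial.eval (pj (fun j => io (e j)) i)) * (M i).transpose =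
        (Real.pi : ℂ) • jm ℂ (n i)) →
      (fun q : (Σ i, Fin (n i) × Fin (n i)) => M q.1 q.2.1 q.2.2) ∈
        TSig (fun i => TorH (n i)) (fun j => io (e j)) := fun M hM i => hM i
  -- the polynomial in `g`
  set P : MvPolynomial (Σ i, Fin (n i) × Fin (n i)) ℂ :=
    ∑ l : (Σ i, Fin (n i) × Fin (n i)) → Fin (δ + 1), (∑ a : Fin h, MvPolynomial.C (μ ^ (a : ℕ) * io (c l a))) *
      ∏ y, (∑ k, MvPolynomial.X (⟨y.1, (y.2.1, k)⟩ : Σ i, Fin (n i) × Fin (n i)) *
        MvPolynomial.C (z * io (U y.1 k y.2.2))) ^ (l y : ℕ) with hP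
  have hPe : ∀ g : ∀ i, Matrix (Fin (n i)) (Fin (n i)) ℂ,
      MvPolynomial.eval (fun q => (g q.1) q.2.1 q.2.2) P = ∑ l : (Σ i, Fin (n i) × Fin (n i)) → Fin (δ + 1),
        (∑ a : Fin h, μ ^ (a : ℕ) * io (c l a)) *
        ∏ y, ((g y.1 * (z • (U y.1).map io)) y.2.1 y.2.2) ^ (l y : ℕ) := by
    intro g
    rw [hP]
    simp only [map_sum, map_mul, map_prod, map_pow, MvPolynomial.eval_C, MvPolynomial.eval_X, Matrix.mul_apply,
      Matrix.smul_apply, Matrix.map_apply, smul_eq_mul]
  have key := dense_prod hn P (fun g hg => by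
    refine (hPe (fun i => (g i).map (algebraMap ℚ ℂ))).trans ?_
    -- polynomials in one variable
    set W : ∀ i, Matrix (Fin (n i)) (Fin (n i)) K := fun i => (g i).map (algebraMap ℚ K) * U i with hW
    set p : Polynomial K := ∑ l : (Σ i, Fin (n i) × Fin (n i)) → Fin (δ + 1),
      (∑ a : Fin h, (Polynomial.X ^ 2) ^ (a : ℕ) * Polynomial.C (c l a)) *
        ∏ y, (Polynomial.X * Polynomial.C (W y.1 y.2.1 y.2.2)) ^ (l y : ℕ) with hp
    have hWm : ∀ i, (W i).map io = (g i).map (algebraMap ℚ ℂ) * (U i).map io := by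
      intro i
      rw [hW]
      simp only [Matrix.map_mul, Matrix.map_map]
      congr 1
      ext r s
      simp
    have hpe : ∀ w : ℂ, Polynomial.eval₂ io w p = ∑ l : (Σ i, Fin (n i) × Fin (n i)) → Fin (δ + 1),
        (∑ a : Fin h, (w ^ 2) ^ (a : ℕ) * io (c l a)) *
        ∏ y, (((g y.1).map (algebraMap ℚ ℂ) * (w • (U y.1).map io)) y.2.1 y.2.2) ^ (l y : ℕ) := by
      intro w
      have h3 : Polynomial.eval₂ io w p = Polynomial.eval₂RingHom io w p := rfl
      rw [h3, hp]
      simp only [map_sum, map_mul, map_prod, map_pow, Polynomial.coe_eval₂RingHom, Polynomial.eval₂_X,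
        Polynomial.eval₂_C]
      refine Finset.sum_congr rfl fun l _ => ?_
      congr 1
      refine Finset.prod_congr rfl fun y _ => ?_
      have h4 := congrFun (congrFun (hWm y.1) y.2.1) y.2.2
      rw [Matrix.map_apply] at h4
      rw [h4, Matrix.mul_smul, Matrix.smul_apply, smul_eq_mul, mul_pow]
    have hp0 : p = 0 := by
      refine sqrt_pi_trans io p ?_
      rw [hpe]
      have h4 : (((√Real.pi : ℝ)) : ℂ) ^ 2 = (Real.pi : ℂ) := by
        rw [← Complex.ofReal_pow, Real.sq_sqrt Real.pi_pos.le]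
      have h5 := H _ (hmem (fun i => (g i).map (algebraMap ℚ ℂ) * (((√Real.pi : ℝ) : ℂ) • (U i).map io)) (by
          intro i
          have h6 := hzU ((√Real.pi : ℝ) : ℂ) i
          rw [h4] at h6
          exact sp_tor (SpS_map (algebraMap ℚ ℂ) (hg i)) h6))
      rw [h4]
      exact h5
    have h6 := hpe z
    rw [hp0, Polynomial.eval₂_zero, hz] at h6
    exact h6.symm) g (fun i => (h1 i).1)
  rw [hPe] at key
  refine Eq.trans (Finset.sum_congr rfl fun l _ => ?_) key
  congr 1
  refine Finset.prod_congr rfl fun y _ => ?_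
  congr 1
  exact (congrFun (congrFun (h1 y.1).2 y.2.1) y.2.2).symm

end Pool.Agent.Y890.HE
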