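import Pool.Agent.Y890.HE.Full
import Pool.Agent.Y890.MV.TorExc

/-!
# Relations between the periods of hyperelliptic curves over number fields
-/

set_option autoImplicit false
set_option linter.unusedSectionVars false

open Filter Matrix NumberField

namespace Pool.Agent.Y890.HE

open Pool.Agent.Y118.HP (perC per qm jm perC_eq_perT per_eq_perT)
open Pool.Agent.Y890.MV
open Pool.Agent.Y124 (Cov)

variable {ι : Type}

/-- configurations of branch points: for every `i`, points `e i 0, …, e i (n i)` with increasing real parts -/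
def Conf (n : ι → ℕ) : Set ((Σ i, Fin (n i + 1)) → ℂ) :=
  {e | ∀ i (r s : Fin (n i + 1)), r < s → (e ⟨i, r⟩).re < (e ⟨i, s⟩).re}

/-- the period matrices of the curves `y² = F i (x)`, `F i = ∏ (x - e i r)`: the `(l, j)` entry for `i` is the integral
of `x ^ j dx / √(± F i)` from `e i l` to `e i (l + 1)` -/
noncomputable def pm (n : ι → ℕ) (e : (Σ i, Fin (n i + 1)) → ℂ) (i : ι) : Matrix (Fin (n i)) (Fin (n i)) ℂ :=
  Matrix.of fun l j => perC (fun r => e ⟨i, r⟩) l j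

/-- the torsor of the periods: `(Y, μ)` with `Y i * Q i * (Y i)ᵀ = μ J` for all `i`, where
`Q i = ((a - b) / 2 * c (a + b + 2))`, `F i = ∑ c k x ^ k`, and `J` is the intersection matrix -/
def torsor (n : ι → ℕ) (e : (Σ i, Fin (n i + 1)) → ℂ) : Set ((∀ i, Matrix (Fin (n i)) (Fin (n i)) ℂ) × ℂ) :=
  {p | p.2 ≠ 0 ∧ ∀ i, p.1 i * qm (n i) (∏ r : Fin (n i + 1), (Polynomial.X - Polynomial.C (e ⟨i, r⟩))) *
    (p.1 i).transpose = p.2 • jm ℂ (n i)}

variable [Fintype ι] [DecidableEq ι]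

/-- the polynomial in the entries of the matrices `Y i` with coefficients `∑ a, w a * c l a`, of degree at most `k` in
each entry -/
noncomputable def poly (n : ι → ℕ) {k : ℕ} (c : ((Σ i, Fin (n i) × Fin (n i)) → Fin (k + 1)) → Fin k → ℂ)
    (w : Fin k → ℂ) (Y : ∀ i, Matrix (Fin (n i)) (Fin (n i)) ℂ) : ℂ :=
  ∑ l : (Σ i, Fin (n i) × Fin (n i)) → Fin (k + 1), (∑ a, w a * c l a) *
    ∏ y : Σ i, Fin (n i) × Fin (n i), (Y y.1 y.2.1 y.2.2) ^ (l y : ℕ)

/-- the relations over `K` of degree at most `k`, with coefficients of size at most `T ^ k`, between the periods at `e`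
and the constants `ξ`, respectively the powers of `π`, hold on the torsor -/
def Generic (n : ι → ℕ) (k : ℕ) (K : Type) [Field K] [NumberField K] (io : K →+* ℂ) (ξ : Fin k → ℂ) (T : ℝ)
    (e : (Σ i, Fin (n i + 1)) → ℂ) : Prop :=
  ∀ c : ((Σ i, Fin (n i) × Fin (n i)) → Fin (k + 1)) → Fin k → 𝓞 K,
    (∀ l a (φ : K →+* ℂ), ‖φ (c l a : K)‖ ≤ T ^ k) →
    (poly n (fun l a => io (c l a : K)) ξ (pm n e) = 0 →
      ∀ Y, (Y, (Real.pi : ℂ)) ∈ torsor n e → poly n (fun l a => io (c l a : K)) ξ Y = 0) ∧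
    (poly n (fun l a => io (c l a : K)) (fun a => (Real.pi : ℂ) ^ (a : ℕ)) (pm n e) = 0 →
      ∀ p ∈ torsor n e, poly n (fun l a => io (c l a : K)) (fun a => p.2 ^ (a : ℕ)) p.1 = 0)

/-- the configurations over `K`, of height at most `T`, of norm at most `k` and distance at least `1 / k` from the
boundary, which are not generic -/
def Exceptional (n : ι → ℕ) (k : ℕ) (K : Type) [Field K] [NumberField K] (io : K →+* ℂ) (ξ : Fin k → ℂ) (T : ℝ) :
    Set ((Σ i, Fin (n i + 1)) → K) :=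
  {e | (∀ j, Y120.HtLe K T (e j)) ∧ (fun j => io (e j)) ∈ InnerM (Conf n) k ∧
    ¬ Generic n k K io ξ T (fun j => io (e j))}

theorem conf_eq (n : ι → ℕ) : Conf n = USig (fun i => Ord (n i)) := rfl

/-- from matrices to functions -/
def unM {n : ι → ℕ} (Y : ∀ i, Matrix (Fin (n i)) (Fin (n i)) ℂ) : (Σ i, Fin (n i) × Fin (n i)) → ℂ :=
  fun q => Y q.1 q.2.1 q.2.2

theorem pj_unM {n : ι → ℕ} (Y : ∀ i, Matrix (Fin (n i)) (Fin (n i)) ℂ) (i : ι) : mt (pj (unM Y) i) = Y i := rfl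

theorem unM_mt {n : ι → ℕ} (Y : (Σ i, Fin (n i) × Fin (n i)) → ℂ) : unM (fun i => mt (pj Y i)) = Y := rfl

theorem unM_pm (n : ι → ℕ) (e : (Σ i, Fin (n i + 1)) → ℂ) : unM (pm n e) = fun q => fSig (fun i => fH (n i)) q e := rfl

theorem torsor_iff {n : ι → ℕ} {e : (Σ i, Fin (n i + 1)) → ℂ} {Y : ∀ i, Matrix (Fin (n i)) (Fin (n i)) ℂ} {μ : ℂ} :
    (Y, μ) ∈ torsor n e ↔ μ ≠ 0 ∧ ∀ i, Y i * (Qg (n i)).map (MvPolynomial.eval (pj e i)) * (Y i).transpose =
      μ • jm ℂ (n i) := by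
  unfold torsor
  simp only [Set.mem_ofPred_eq, Qg_eval]
  rfl

theorem pm_mem {n : ι → ℕ} (hn : ∀ i, Even (n i)) {e : (Σ i, Fin (n i + 1)) → ℂ} (he : e ∈ Conf n) :
    (pm n e, (Real.pi : ℂ)) ∈ torsor n e := by
  rw [torsor_iff]
  exact ⟨by exact_mod_cast Real.pi_ne_zero, fun i => legendreC (hn i) (he i)⟩

theorem exceptional_sub {n : ι → ℕ} (hn : ∀ i, Even (n i)) (k : ℕ) (hk : 0 < k) (K : Type) [Field K] [NumberField K]
    (io : K →+* ℂ) (ξ : Fin k → ℂ) (T : ℝ) : Exceptional n k K io ξ T ⊆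
      ExcT k (fSig (fun i => fH (n i))) (TSig (fun i => TorH (n i))) (InnerM (Conf n) k) K io ξ (k : ℝ) T ∪
      ExcT k (fSig (fun i => fH (n i))) (TSig (fun i => TorH (n i))) (InnerM (Conf n) k) K io
        (fun a : Fin k => (Real.pi : ℂ) ^ (a : ℕ)) (k : ℝ) T := by
  classical
  rintro e ⟨h1, h2, h3⟩
  by_contra hcon
  rw [Set.mem_union, not_or] at hcon
  obtain ⟨h4, h5⟩ := hcon
  apply h3
  intro c hc
  have hc' : ∀ l i (φ : K →+* ℂ), ‖φ (c l i : K)‖ ≤ T ^ (k : ℝ) := by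
    intro l i φ
    rw [Real.rpow_natCast]
    exact hc l i φ
  have hgen : ∀ (w : Fin k → ℂ) (Y : ∀ i, Matrix (Fin (n i)) (Fin (n i)) ℂ),
      poly n (fun l a => io (c l a : K)) w Y =
        ∑ l, (∑ a, w a * io (c l a : K)) * ∏ y, unM Y y ^ (l y : ℕ) := fun _ _ => rfl
  have key : ∀ w : Fin k → ℂ, e ∉ ExcT k (fSig (fun i => fH (n i))) (TSig (fun i => TorH (n i)))
      (InnerM (Conf n) k) K io w (k : ℝ) T → poly n (fun l a => io (c l a : K)) w (pm n (fun j => io (e j))) = 0 →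
      ∀ Y ∈ TSig (fun i => TorH (n i)) (fun j => io (e j)),
        ∑ l, (∑ a, w a * io (c l a : K)) * ∏ y, Y y ^ (l y : ℕ) = 0 := by
    intro w hw hw0
    by_contra hne
    exact hw ⟨h1, h2, c, hc', hw0, hne⟩
  refine ⟨fun h6 Y hY => ?_, fun h6 => ?_⟩
  · rw [torsor_iff] at hY
    rw [hgen]
    exact key ξ h4 h6 (unM Y) hY.2
  · rintro ⟨Y, μ⟩ hp
    rw [torsor_iff] at hp
    rw [hgen]
    exact full hn io e (innerM_sub _ hk h2) (fun l a => (c l a : K))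
      (key (fun a => (Real.pi : ℂ) ^ (a : ℕ)) h5 h6) hp.1 (unM Y) hp.2

theorem main [Nonempty ι] (n : ι → ℕ) (hn : ∀ i, Even (n i)) :
    ∃ (ω : ℝ → ℕ) (T₀ : ℝ), Tendsto ω atTop atTop ∧ Monotone ω ∧ ∀ T, T₀ ≤ T → 0 < ω T ∧
      ∀ (K : Type) [Field K] [NumberField K], Module.finrank ℚ K ≤ ω T → ∀ (io : K →+* ℂ) (ξ : Fin (ω T) → ℂ),
        Cov ⌊T ^ ((ω T : ℝ)⁻¹)⌋₊ ⌊T ^ ((ω T : ℝ)⁻¹)⌋₊
          ((fun (e : (Σ i, Fin (n i + 1)) → K) j => io (e j)) '' Exceptional n (ω T) K io ξ T) ∧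
        (Exceptional n (ω T) K io ξ T).Finite ∧
        ((Exceptional n (ω T) K io ξ T).ncard : ℝ) ≤
          T ^ ((ω T : ℝ)⁻¹) * ({x : K | Y120.HtLe K T x}.ncard : ℝ) ^ (Fintype.card (Σ i, Fin (n i + 1)) - 1) := by
  classical
  obtain ⟨i0⟩ := ‹Nonempty ι›
  haveI : Nonempty (Σ i, Fin (n i + 1)) := ⟨⟨i0, 0⟩⟩
  refine omega_gen (fun k => Fin k → ℂ) (fun k K _ _ io ξ T => Exceptional n k K io ξ T)
    (fun k K _ _ io ξ T s hs => hs.1) ?_
  intro k ε hε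
  rcases Nat.eq_zero_or_pos k with hk | hk
  · refine ⟨0, 0, 2, le_rfl, le_rfl, ?_⟩
    intro K _ _ hK
    have h1 : 0 < Module.finrank ℚ K := Module.finrank_pos
    omega
  have hUo : IsOpen (USig (fun i => Ord (n i))) := USig_open fun i => Ord_open (n i)
  have hUc : IsPreconnected (USig (fun i => Ord (n i))) := (USig_convex fun i => Ord_convex (n i)).isPreconnected
  have hUn : (USig (fun i => Ord (n i))).Nonempty := USig_nonempty fun i => Ord_nonempty (n i)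
  have hf : ∀ q, AnalyticOnNhd ℂ (fSig (fun i => fH (n i)) q) (USig (fun i => Ord (n i))) :=
    fSig_an fun i s => fH_an s
  have hT : TorM (USig (fun i => Ord (n i))) (fSig (fun i => fH (n i))) (TSig (fun i => TorH (n i))) :=
    TorM.sig fun i => torH (hn i)
  obtain ⟨D, C, T₀, hC, hT₀, H⟩ := excT_cov hUc hUo hUn hf hT (InnerM (Conf n) k) (innerM_compact _ _)
    (innerM_sub _ hk) k (Fin k) k (k : ℝ) ε hε
  refine ⟨D, 2 * C, T₀, by positivity, hT₀, fun K _ _ hK io ξ T hT0 => ?_⟩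
  have h1 := (H K hK io ξ T hT0).union (H K hK io (fun a : Fin k => (Real.pi : ℂ) ^ (a : ℕ)) T hT0)
  rw [← Set.image_union] at h1
  refine h1.mono le_rfl ?_ (Set.image_mono (exceptional_sub hn k hk K io ξ T))
  have h2 : (0 : ℝ) ≤ C * T ^ ε := by
    have : (0 : ℝ) < T := by linarith
    positivity
  apply Nat.le_floor
  push_cast
  have h3 := Nat.floor_le h2
  linarith

theorem pm_real {n : ι → ℕ} (e : (Σ i, Fin (n i + 1)) → ℝ) (he : ∀ i, StrictMono fun r => e ⟨i, r⟩) (i : ι)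
    (l j : Fin (n i)) : pm n (fun q => (e q : ℂ)) i l j =
      ((∫ x in (e ⟨i, l.castSucc⟩)..(e ⟨i, l.succ⟩), x ^ (j : ℕ) / √|∏ r, (x - e ⟨i, r⟩)| : ℝ) : ℂ) := by
  have h1 := perC_eq_perT (he i) l (j : ℕ)
  rw [← per_eq_perT (he i)] at h1
  exact h1

theorem pm_an {n : ι → ℕ} (i : ι) (l j : Fin (n i)) : AnalyticOnNhd ℂ (fun e => pm n e i l j) (Conf n) :=
  fSig_an (f' := fun i => fH (n i)) (U' := fun i => Ord (n i)) (fun i s => fH_an s) ⟨i, (l, j)⟩

end Pool.Agent.Y890.HE
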