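import Pool.Agent.Y890.HE.Dom

/-!
# Analytic functions which vanish at the real points
-/

set_option autoImplicit false
set_option linter.unusedSectionVars false

open Complex Set Filter Topology

namespace Pool.Agent.Y890.HE

theorem upd_an {X : Type} [Fintype X] [DecidableEq X] (z : X → ℂ) (i : X) (t : ℂ) :
    AnalyticAt ℂ (fun t : ℂ => Function.update z i t) t := by
  rw [analyticAt_pi_iff]
  intro j
  by_cases h : j = i
  · subst h
    simp only [Function.update_self]
    exact analyticAt_id
  · simpa [Function.update_of_ne h] using analyticAt_const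

theorem real_zero {X : Type} [Fintype X] [DecidableEq X] {V : Set (X → ℂ)} (hV : IsOpen V)
    (hVc : IsPreconnected V) {x0 : X → ℝ} (hx0 : (fun i => (x0 i : ℂ)) ∈ V) {F : (X → ℂ) → ℂ}
    (hF : AnalyticOnNhd ℂ F V)
    (h : ∀ x : X → ℝ, (fun i => (x i : ℂ)) ∈ V → F (fun i => (x i : ℂ)) = 0) : ∀ z ∈ V, F z = 0 := by
  classical
  obtain ⟨r, hr, hball⟩ := Metric.isOpen_iff.1 hV _ hx0
  have hmem : ∀ z : X → ℂ, (∀ i, dist (z i) (x0 i : ℂ) < r) ↔ z ∈ Metric.ball (fun i => (x0 i : ℂ)) r := by
    intro z
    rw [Metric.mem_ball, dist_pi_lt_iff hr]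
  have key : ∀ (A : Finset X) (z : X → ℂ), (∀ i, dist (z i) (x0 i : ℂ) < r) → (∀ i, i ∉ A → (z i).im = 0) →
      F z = 0 := by
    intro A
    induction A using Finset.induction_on with
    | empty =>
      intro z hz hA
      have h1 : z = fun i => ((z i).re : ℂ) := by
        funext i
        exact Complex.ext (by simp) (by simpa using hA i (Finset.notMem_empty i))
      rw [h1]
      apply h
      rw [← h1]
      exact hball ((hmem z).1 hz)
    | insert i0 A hi0 ih =>
      intro z hz hA
      have hzu : ∀ t : ℂ, dist t (x0 i0 : ℂ) < r → ∀ i, dist (Function.update z i0 t i) (x0 i : ℂ) < r := by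
        intro t ht i
        by_cases hi : i = i0
        · subst hi
          simpa using ht
        · rw [Function.update_of_ne hi]
          exact hz i
      have hG : AnalyticOnNhd ℂ (fun t : ℂ => F (Function.update z i0 t)) (Metric.ball (x0 i0 : ℂ) r) := by
        intro t ht
        exact AnalyticAt.comp (g := F) (f := fun t : ℂ => Function.update z i0 t)
          (hF _ (hball ((hmem _).1 (hzu t ht)))) (upd_an z i0 t)
      have hzero : ∀ t : ℝ, dist (t : ℂ) (x0 i0 : ℂ) < r → F (Function.update z i0 (t : ℂ)) = 0 := by
        intro t ht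
        refine ih _ (hzu t ht) fun i hi => ?_
        by_cases hi' : i = i0
        · subst hi'
          simp
        · rw [Function.update_of_ne hi']
          exact hA i (by simp [hi', hi])
      have h2 : ∃ᶠ t in 𝓝[≠] (x0 i0 : ℂ), F (Function.update z i0 t) = 0 := by
        have h3 : Tendsto (fun t : ℝ => (t : ℂ)) (𝓝[>] (x0 i0)) (𝓝[≠] (x0 i0 : ℂ)) := by
          refine tendsto_nhdsWithin_iff.2 ⟨?_, ?_⟩
          · exact (continuous_ofReal.tendsto _).mono_left nhdsWithin_le_nhds
          · filter_upwards [self_mem_nhdsWithin] with t ht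
            simp only [mem_compl_iff, mem_singleton_iff, ofReal_inj]
            exact (ne_of_gt ht)
        refine h3.frequently (Eventually.frequently ?_)
        filter_upwards [Ioo_mem_nhdsGT (show x0 i0 < x0 i0 + r by linarith)] with t ht
        apply hzero
        rw [dist_eq_norm, ← ofReal_sub, norm_real, Real.norm_eq_abs, abs_lt]
        constructor
        · linarith [ht.1]
        · linarith [ht.2]
      have h4 := hG.eqOn_zero_of_preconnected_of_frequently_eq_zero
        (convex_ball _ _).isPreconnected (Metric.mem_ball_self hr) h2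
      have h5 := h4 (show z i0 ∈ Metric.ball (x0 i0 : ℂ) r from hz i0)
      simpa using h5
  refine hF.eqOn_zero_of_preconnected_of_eventuallyEq_zero hVc hx0 ?_
  filter_upwards [Metric.ball_mem_nhds _ hr] with z hz
  exact key Finset.univ z ((hmem z).2 hz) fun i hi => absurd (Finset.mem_univ i) hi

end Pool.Agent.Y890.HE
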