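import Pool.Agent.Y890.HE.Rz

/-!
# The torsor of the periods of all hyperelliptic curves of a given genus
-/

set_option autoImplicit false
set_option linter.unusedSectionVars false

open Complex Set Filter Topology Matrix

namespace Pool.Agent.Y890.HE

open Pool.Agent.Y118.HP
open Pool.Agent.Y890.MV (evX evM_eq TorM evM_an)

variable {n : ℕ}

/-- the periods -/
noncomputable def fH (n : ℕ) (q : Fin n × Fin n) (e : Fin (n + 1) → ℂ) : ℂ := perC e q.1 (q.2 : ℕ)

theorem fH_an (q : Fin n × Fin n) : AnalyticOnNhd ℂ (fH n q) (Ord n) := perC_an q.1 q.2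

/-- a matrix from a function of two variables -/
def mt {R : Type} (Y : Fin n × Fin n → R) : Matrix (Fin n) (Fin n) R := Matrix.of fun i j => Y (i, j)

/-- the coefficients of the polynomial with the given roots -/
noncomputable def cfP (n k : ℕ) : MvPolynomial (Fin (n + 1)) ℂ :=
  (∏ i : Fin (n + 1), (Polynomial.X - Polynomial.C (MvPolynomial.X i : MvPolynomial (Fin (n + 1)) ℂ))).coeff k

theorem cfP_eval (k : ℕ) (e : Fin (n + 1) → ℂ) : MvPolynomial.eval e (cfP n k) =
    (∏ i : Fin (n + 1), (Polynomial.X - Polynomial.C (e i))).coeff k := by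
  rw [cfP, ← Polynomial.coeff_map, Polynomial.map_prod]
  congr 1
  refine Finset.prod_congr rfl fun i _ => ?_
  rw [Polynomial.map_sub, Polynomial.map_X, Polynomial.map_C, MvPolynomial.eval_X]

/-- the matrix of the Riemann-Legendre relations -/
noncomputable def Qg (n : ℕ) : Matrix (Fin n) (Fin n) (MvPolynomial (Fin (n + 1)) ℂ) :=
  Matrix.of fun i j => MvPolynomial.C ((((i : ℕ) : ℂ) - ((j : ℕ) : ℂ)) / 2) * cfP n ((i : ℕ) + (j : ℕ) + 2)

theorem Qg_eval (e : Fin (n + 1) → ℂ) :
    (Qg n).map (MvPolynomial.eval e) = qm n (∏ i : Fin (n + 1), (Polynomial.X - Polynomial.C (e i))) := by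
  ext i j
  rw [Matrix.map_apply, Qg, qm, Matrix.of_apply, Matrix.of_apply, map_mul, MvPolynomial.eval_C, cfP_eval]

theorem Qg_transpose : (Qg n).transpose = -Qg n := by
  ext1 i j
  rw [Matrix.transpose_apply, Matrix.neg_apply]
  unfold Qg
  simp only [Matrix.of_apply]
  rw [show (j : ℕ) + (i : ℕ) + 2 = (i : ℕ) + (j : ℕ) + 2 by omega, ← neg_mul, ← MvPolynomial.C_neg]
  congr 2
  ring

theorem Qg_diag (i : Fin n) : Qg n i i = 0 := by
  unfold Qg
  simp

/-- the matrices which satisfy the Riemann-Legendre relations -/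
def TorH (n : ℕ) (e : Fin (n + 1) → ℂ) : Set (Fin n × Fin n → ℂ) :=
  {Y | mt Y * (Qg n).map (MvPolynomial.eval e) * (mt Y).transpose = (Real.pi : ℂ) • jm ℂ n}

/-- the period matrix -/
noncomputable def FM (e : Fin (n + 1) → ℂ) : Matrix (Fin n) (Fin n) ℂ := mt fun q => fH n q e

theorem ev_an (p : MvPolynomial (Fin (n + 1)) ℂ) : AnalyticOnNhd ℂ (fun e => MvPolynomial.eval e p) (Ord n) := by
  intro e _
  exact AnalyticOnNhd.eval_mvPolynomial (𝕜 := ℂ) p e (Set.mem_univ e)

theorem FM_real {e : Fin (n + 1) → ℝ} (he : StrictMono e) :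
    FM (fun i => (e i : ℂ)) = (perM e).map (algebraMap ℝ ℂ) := by
  ext l j
  rw [Matrix.map_apply]
  unfold FM mt fH perM
  rw [Matrix.of_apply, Matrix.of_apply]
  simp only
  rw [perC_eq_perT he, per_eq_perT he]
  rfl

theorem strictMono_of_mem {e : Fin (n + 1) → ℝ} (he : (fun i => (e i : ℂ)) ∈ Ord n) : StrictMono e := by
  intro i k hik
  simpa using he i k hik

/-- the relations for all configurations -/
theorem legendreC (hn : Even n) {e : Fin (n + 1) → ℂ} (he : e ∈ Ord n) :
    FM e * (Qg n).map (MvPolynomial.eval e) * (FM e).transpose = (Real.pi : ℂ) • jm ℂ n := by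
  ext r s
  obtain ⟨e0, he0⟩ : ∃ e0 : Fin (n + 1) → ℝ, (fun i => (e0 i : ℂ)) ∈ Ord n :=
    ⟨fun i => (i : ℝ), Ord_real (fun i k h => by
      show ((i : ℕ) : ℝ) < ((k : ℕ) : ℝ)
      exact_mod_cast h)⟩
  have h1 := real_zero (Ord_open n) (Ord_convex n).isPreconnected he0
    (F := fun e => (FM e * (Qg n).map (MvPolynomial.eval e) * (FM e).transpose) r s - ((Real.pi : ℂ) • jm ℂ n) r s)
    (by
      intro e he
      refine AnalyticAt.sub ?_ analyticAt_const
      simp only [Matrix.mul_apply, Matrix.transpose_apply, Matrix.map_apply]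
      refine Finset.analyticAt_fun_sum _ fun k _ => ?_
      refine AnalyticAt.mul ?_ (fH_an (s, k) e he)
      refine Finset.analyticAt_fun_sum _ fun i _ => ?_
      exact (fH_an (r, i) e he).mul (ev_an _ e he))
    (by
      intro x hx
      have hx' := strictMono_of_mem hx
      have h2 := legendre hn x hx'
      have h3 := congrArg (fun M => M.map (algebraMap ℝ ℂ)) h2
      simp only [Matrix.map_mul, Matrix.transpose_map] at h3
      have h4 : (qm n (∏ i : Fin (n + 1), (Polynomial.X - Polynomial.C (x i)))).map (algebraMap ℝ ℂ) =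
          (Qg n).map (MvPolynomial.eval fun i => (x i : ℂ)) := by
        rw [Qg_eval]
        ext i j
        rw [Matrix.map_apply]
        unfold qm
        rw [Matrix.of_apply, Matrix.of_apply]
        have h5 : (∏ i : Fin (n + 1), (Polynomial.X - Polynomial.C ((x i : ℝ) : ℂ))) =
            (∏ i : Fin (n + 1), (Polynomial.X - Polynomial.C (x i))).map (algebraMap ℝ ℂ) := by
          rw [Polynomial.map_prod]
          refine Finset.prod_congr rfl fun i _ => ?_
          rw [Polynomial.map_sub, Polynomial.map_X, Polynomial.map_C]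
          rfl
        rw [h5, Polynomial.coeff_map]
        simp
      have h6 : (Real.pi • jm ℝ n).map (algebraMap ℝ ℂ) = (Real.pi : ℂ) • jm ℂ n := by
        rw [← jm_mapC]
        ext i j
        simp [Matrix.smul_apply, Matrix.map_apply]
      rw [h4, h6] at h3
      show (FM (fun i => (x i : ℂ)) * (Qg n).map (MvPolynomial.eval fun i => (x i : ℂ)) *
        (FM fun i => (x i : ℂ)).transpose) r s - _ = 0
      rw [FM_real hx', h3, sub_self])
  exact sub_eq_zero.1 (h1 e he)

theorem FM_det (hn : Even n) {e : Fin (n + 1) → ℂ} (he : e ∈ Ord n) : (FM e).det ≠ 0 := by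
  intro h0
  have h1 := congrArg Matrix.det (legendreC hn he)
  rw [Matrix.det_mul, Matrix.det_mul, h0, zero_mul, zero_mul, Matrix.det_smul] at h1
  exact mul_ne_zero (pow_ne_zero _ (by exact_mod_cast Real.pi_ne_zero)) (jm_det hn) h1.symm

/-- substitution of constants for all branch points but the first one -/
noncomputable def spe (a : Fin n → ℂ) : MvPolynomial (Fin n × Fin n) (MvPolynomial (Fin (n + 1)) ℂ) →+*
    MvPolynomial (Option (Fin n × Fin n)) ℂ :=
  MvPolynomial.eval₂Hom (MvPolynomial.eval₂Hom MvPolynomial.C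
    (Fin.cons (MvPolynomial.X none) (fun i => MvPolynomial.C (a i)))) (fun q => MvPolynomial.X (some q))

theorem spe_ev (a : Fin n → ℂ) (z : ℂ) (Y : Fin n × Fin n → ℂ)
    (p : MvPolynomial (Fin n × Fin n) (MvPolynomial (Fin (n + 1)) ℂ)) :
    ev (spe a p) z (mt Y) = evX (Fin.cons z a) Y p := by
  have h1 : (MvPolynomial.eval (fun o : Option (Fin n × Fin n) => o.elim z fun x => mt Y x.1 x.2)).comp (spe a) =
      MvPolynomial.eval₂Hom (MvPolynomial.eval (Fin.cons z a)) Y := by
    refine MvPolynomial.ringHom_ext (fun b => ?_) (fun q => ?_)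
    · have h2 : ((MvPolynomial.eval (fun o : Option (Fin n × Fin n) => o.elim z fun x => mt Y x.1 x.2)).comp
          (spe a)).comp MvPolynomial.C = MvPolynomial.eval (Fin.cons z a) := by
        refine MvPolynomial.ringHom_ext (fun c => ?_) (fun i => ?_)
        · simp [spe]
        · refine Fin.cases ?_ (fun i => ?_) i
          · simp [spe]
          · simp [spe]
      have h3 := congrArg (fun g => g b) h2
      simp only [RingHom.comp_apply] at h3
      rw [RingHom.comp_apply, h3]
      exact (MvPolynomial.eval₂Hom_C _ _ _).symm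
    · simp [spe, mt]
  exact congrArg (fun g => g p) h1

theorem ee_zero (a : Fin n → ℝ) (z : ℂ) : ee a 0 z = Fin.cons z (fun i => (a i : ℂ)) := by
  unfold ee
  rw [Fin.insertNth_zero]
  rfl

theorem PM_zero (a : Fin n → ℝ) (z : ℂ) : PM a 0 z = FM (Fin.cons z fun i => (a i : ℂ)) := by
  ext l j
  unfold PM FM mt fH
  rw [Matrix.of_apply, Matrix.of_apply, ee_zero]

/-- relations are invariant under the symplectic group -/
theorem inv_g (hn : Even n) (p : MvPolynomial (Fin n × Fin n) (MvPolynomial (Fin (n + 1)) ℂ))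
    (hp : ∀ e ∈ Ord n, Y890.MV.evM (fH n) e p = 0) (g : Matrix (Fin n) (Fin n) ℂ) (hg : g ∈ SpS ℂ n) :
    ∀ e ∈ Ord n, evX e (fun q => (g * FM e) q.1 q.2) p = 0 := by
  obtain ⟨e0, he0⟩ : ∃ e0 : Fin (n + 1) → ℝ, (fun i => (e0 i : ℂ)) ∈ Ord n :=
    ⟨fun i => (i : ℝ), Ord_real (fun i k h => by
      show ((i : ℕ) : ℝ) < ((k : ℕ) : ℝ)
      exact_mod_cast h)⟩
  refine real_zero (Ord_open n) (Ord_convex n).isPreconnected he0 ?_ ?_
  · have h1 : (fun e : Fin (n + 1) → ℂ => evX e (fun q => (g * FM e) q.1 q.2) p) =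
        fun e => Y890.MV.evM (fun q e => (g * FM e) q.1 q.2) e p := rfl
    rw [h1]
    refine evM_an (fun q => ?_) p
    intro e he
    simp only [Matrix.mul_apply]
    refine Finset.analyticAt_fun_sum _ fun k _ => ?_
    exact analyticAt_const.mul (fH_an (k, q.2) e he)
  · intro x hx
    have hx' := strictMono_of_mem hx
    have ha : StrictMono (fun i : Fin n => x i.succ) := fun i k h => hx' (Fin.succ_lt_succ_iff.2 h)
    have hcons : ∀ z : ℂ, (Fin.cons z fun i : Fin n => ((x i.succ : ℝ) : ℂ)) =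
        (Fin.cons z fun i : Fin n => ((fun i : Fin n => x i.succ) i : ℂ) : Fin (n + 1) → ℂ) := fun z => rfl
    have hgap : ∀ t ∈ Set.Icc (x 0 - 1) (x 0), InGap (fun i : Fin n => x i.succ) 0 t := by
      intro t ht i
      refine ⟨fun h => absurd h (Fin.not_lt_zero _), fun _ => ?_⟩
      exact lt_of_le_of_lt ht.2 (hx' (Fin.succ_pos i))
    have hin : ∀ t ∈ Set.Icc (x 0 - 1) (x 0),
        (Fin.cons (t : ℂ) fun i : Fin n => ((x i.succ : ℝ) : ℂ) : Fin (n + 1) → ℂ) ∈ Ord n := by
      intro t ht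
      have h2 := Ord_real (er_strictMono ha (hgap t ht))
      have h3 := ee_ofReal (fun i : Fin n => x i.succ) 0 t
      rw [ee_zero] at h3
      rw [← h3] at h2
      exact h2
    have key := func_inv hn ha 0 (spe (fun i : Fin n => ((x i.succ : ℝ) : ℂ)) p) (show x 0 - 1 < x 0 by linarith)
      hgap (by
        intro t ht
        rw [PM_zero]
        unfold FM
        rw [spe_ev]
        exact hp _ (hin t ht)) g hg (x 0 : ℂ) (hgap (x 0) ⟨by linarith, le_rfl⟩).mem_Dm
    have h4 : (fun i => (x i : ℂ)) = (Fin.cons (x 0 : ℂ) fun i : Fin n => ((x i.succ : ℝ) : ℂ)) := by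
      funext i
      refine Fin.cases ?_ (fun i => ?_) i
      · simp
      · simp
    rw [PM_zero] at key
    rw [h4]
    have h5 : g * FM (Fin.cons (x 0 : ℂ) fun i : Fin n => ((x i.succ : ℝ) : ℂ)) =
        mt (fun q => (g * FM (Fin.cons (x 0 : ℂ) fun i : Fin n => ((x i.succ : ℝ) : ℂ))) q.1 q.2) := rfl
    rw [h5, spe_ev] at key
    exact key

end Pool.Agent.Y890.HE
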