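import Pool.Agent.Y890.HE.TorH

/-!
# The torsor of the periods of all hyperelliptic curves of a given genus: sections and paths
-/

set_option autoImplicit false
set_option linter.unusedSectionVars false

open Complex Set Filter Topology Matrix

namespace Pool.Agent.Y890.HE

open Pool.Agent.Y118.HP
open Pool.Agent.Y890.MV (evX evM_eq TorM evM_an)

variable {n : ℕ}

theorem Qg_det (hn : Even n) : (Qg n).det ≠ 0 := by
  intro h0
  obtain ⟨e, he⟩ := Ord_nonempty n
  have h1 := congrArg Matrix.det (legendreC hn he)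
  have h2 : ((Qg n).map (MvPolynomial.eval e)).det = 0 := by
    have h3 : ((Qg n).map (MvPolynomial.eval e)).det = MvPolynomial.eval e (Qg n).det :=
      (RingHom.map_det (MvPolynomial.eval e) (Qg n)).symm
    rw [h3, h0, map_zero]
  rw [Matrix.det_mul, Matrix.det_mul, h2, mul_zero, zero_mul, Matrix.det_smul] at h1
  exact mul_ne_zero (pow_ne_zero _ (by exact_mod_cast Real.pi_ne_zero)) (jm_det hn) h1.symm

theorem exists_sec (hn : Even n) :
    ∃ (c : MvPolynomial (Fin (n + 1)) ℂ) (W : Matrix (Fin n) (Fin n) (MvPolynomial (Fin (n + 1)) ℂ)), c ≠ 0 ∧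
      W * Qg n * W.transpose = c ^ 2 • jm (MvPolynomial (Fin (n + 1)) ℂ) n := by
  classical
  set R := MvPolynomial (Fin (n + 1)) ℂ with hR
  set K := FractionRing R with hK
  set φ : R →+* K := algebraMap R K with hφ
  have hinj : Function.Injective φ := IsFractionRing.injective R K
  have hA : ((Qg n).map φ).transpose = -(Qg n).map φ := by
    rw [← Matrix.transpose_map, Qg_transpose]
    ext i j
    simp
  have hA0 : ∀ i, ((Qg n).map φ) i i = 0 := by
    intro i
    rw [Matrix.map_apply, Qg_diag, map_zero]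
  have hAd : ((Qg n).map φ).det ≠ 0 := by
    have : ((Qg n).map φ).det = φ (Qg n).det := (RingHom.map_det φ _).symm
    rw [this]
    exact fun h => Qg_det hn (hinj (by rw [h, map_zero]))
  have hB0 : ∀ i, (jm K n) i i = 0 := fun i => jm_diag i
  obtain ⟨U0, _, hU⟩ := Pool.Agent.Y122.HPDar.darboux ((Qg n).map φ) (jm K n) hA hA0 hAd jm_transpose hB0
    (jm_det hn)
  obtain ⟨b, hb⟩ := IsLocalization.exist_integer_multiples_of_finite (nonZeroDivisors R)
    (fun x : Fin n × Fin n => U0 x.1 x.2)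
  choose u hu using hb
  set U : Matrix (Fin n) (Fin n) R := Matrix.of fun i j => u (i, j) with hUd
  have hUm : U.map φ = φ (b : R) • U0 := by
    ext i j
    rw [Matrix.map_apply, hUd, Matrix.of_apply, Matrix.smul_apply, smul_eq_mul]
    have := hu (i, j)
    rw [Algebra.smul_def] at this
    exact this
  set c : R := (b : R) with hc
  have hc0 : c ≠ 0 := nonZeroDivisors.ne_zero b.2
  have hmapinj : Function.Injective (fun M : Matrix (Fin n) (Fin n) R => M.map φ) :=
    Matrix.map_injective hinj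
  refine ⟨c, U, hc0, ?_⟩
  apply hmapinj
  show (U * Qg n * U.transpose).map φ = (c ^ 2 • jm R n).map φ
  rw [Matrix.map_mul, Matrix.map_mul, Matrix.transpose_map, hUm]
  have e1 : (c ^ 2 • jm R n).map φ = φ c ^ 2 • jm K n := by
    rw [← jm_map φ]
    ext i j
    simp [Matrix.smul_apply, smul_eq_mul]
  rw [e1, ← hU]
  rw [Matrix.transpose_smul, Matrix.smul_mul, Matrix.mul_smul, Matrix.smul_mul, smul_smul, ← sq]

/-- two elements of the torsor differ by a symplectic matrix -/
theorem tor_sp (hn : Even n) {e : Fin (n + 1) → ℂ} {A B : Matrix (Fin n) (Fin n) ℂ}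
    (hA : A * (Qg n).map (MvPolynomial.eval e) * A.transpose = (Real.pi : ℂ) • jm ℂ n)
    (hB : B * (Qg n).map (MvPolynomial.eval e) * B.transpose = (Real.pi : ℂ) • jm ℂ n) :
    A * B⁻¹ ∈ SpS ℂ n ∧ A * B⁻¹ * B = A := by
  have hπ : (Real.pi : ℂ) ≠ 0 := by exact_mod_cast Real.pi_ne_zero
  have hdet : B.det ≠ 0 := by
    intro h0
    have h1 := congrArg Matrix.det hB
    rw [Matrix.det_mul, Matrix.det_mul, h0, zero_mul, zero_mul, Matrix.det_smul] at h1
    exact mul_ne_zero (pow_ne_zero _ hπ) (jm_det hn) h1.symm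
  have hu : IsUnit B.det := isUnit_iff_ne_zero.2 hdet
  have h2 : B⁻¹ * B = 1 := nonsing_inv_mul B hu
  have h3 : B.transpose * (B⁻¹).transpose = 1 := by
    rw [← Matrix.transpose_mul, h2, Matrix.transpose_one]
  refine ⟨?_, by rw [Matrix.mul_assoc, h2, mul_one]⟩
  show A * B⁻¹ * jm ℂ n * (A * B⁻¹).transpose = jm ℂ n
  have h4 : B⁻¹ * ((Real.pi : ℂ) • jm ℂ n) * (B⁻¹).transpose = (Qg n).map (MvPolynomial.eval e) := by
    calc B⁻¹ * ((Real.pi : ℂ) • jm ℂ n) * (B⁻¹).transpose
        = (B⁻¹ * B) * (Qg n).map (MvPolynomial.eval e) * (B.transpose * (B⁻¹).transpose) := by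
          rw [← hB]; simp only [Matrix.mul_assoc]
      _ = _ := by rw [h2, h3, one_mul, mul_one]
  have h5 : (Real.pi : ℂ) • (A * B⁻¹ * jm ℂ n * (A * B⁻¹).transpose) = (Real.pi : ℂ) • jm ℂ n := by
    calc (Real.pi : ℂ) • (A * B⁻¹ * jm ℂ n * (A * B⁻¹).transpose)
        = A * (B⁻¹ * ((Real.pi : ℂ) • jm ℂ n) * (B⁻¹).transpose) * A.transpose := by
          rw [Matrix.transpose_mul, Matrix.mul_smul, Matrix.smul_mul, Matrix.mul_smul, Matrix.smul_mul]
          simp only [Matrix.mul_assoc]
      _ = _ := by rw [h4, hA]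
  have h6 := congrArg (fun M => (Real.pi : ℂ)⁻¹ • M) h5
  simpa only [smul_smul, inv_mul_cancel₀ hπ, one_smul] using h6

theorem sp_tor {e : Fin (n + 1) → ℂ} {g A : Matrix (Fin n) (Fin n) ℂ} (hg : g ∈ SpS ℂ n)
    (hA : A * (Qg n).map (MvPolynomial.eval e) * A.transpose = (Real.pi : ℂ) • jm ℂ n) :
    g * A * (Qg n).map (MvPolynomial.eval e) * (g * A).transpose = (Real.pi : ℂ) • jm ℂ n := by
  have hg' : g * jm ℂ n * g.transpose = jm ℂ n := hg
  calc g * A * (Qg n).map (MvPolynomial.eval e) * (g * A).transpose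
      = g * (A * (Qg n).map (MvPolynomial.eval e) * A.transpose) * g.transpose := by
        rw [Matrix.transpose_mul]; simp only [Matrix.mul_assoc]
    _ = _ := by rw [hA, Matrix.mul_smul, Matrix.smul_mul, hg']

theorem mt_eta (M : Matrix (Fin n) (Fin n) ℂ) : mt (fun q => M q.1 q.2) = M := rfl

/-- **The torsor of the periods of all hyperelliptic curves of a given genus.** -/
theorem torH (hn : Even n) : TorM (Ord n) (fH n) (TorH n) := by
  classical
  refine ⟨fun e he => legendreC hn he, ?_, ?_, ?_⟩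
  · intro p hp e he Y hY
    obtain ⟨h1, h2⟩ := tor_sp hn hY (legendreC hn he)
    have h3 := inv_g hn p hp _ h1 e he
    rw [h2] at h3
    exact h3
  · intro e he Y hY
    obtain ⟨h1, h2⟩ := tor_sp hn hY (legendreC hn he)
    obtain ⟨G, hG0, hG1, hG⟩ := exists_path hn _ h1
    have hev : ∀ t : ℂ, (fun q : Fin n × Fin n =>
        (∑ k, G q.1 k * Polynomial.C (fH n (k, q.2) e)).eval t) =
        fun q => (G.map (Polynomial.eval t) * FM e) q.1 q.2 := by
      intro t
      funext q
      rw [Polynomial.eval_finsetSum, Matrix.mul_apply]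
      refine Finset.sum_congr rfl fun k _ => ?_
      rw [Polynomial.eval_mul, Polynomial.eval_C, Matrix.map_apply]
      rfl
    refine ⟨fun q => ∑ k, G q.1 k * Polynomial.C (fH n (k, q.2) e), ?_, ?_, ?_⟩
    · intro s
      have h3 := congrFun (hev 0) s
      rw [hG0, one_mul] at h3
      exact h3
    · intro s
      have h3 := congrFun (hev 1) s
      rw [hG1, h2] at h3
      exact h3
    · intro t
      rw [hev]
      exact sp_tor (hG t) (legendreC hn he)
  · obtain ⟨c, W, hc, hW⟩ := exists_sec hn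
    set s : ℂ := ((√Real.pi : ℝ) : ℂ) with hs
    have hs2 : s ^ 2 = (Real.pi : ℂ) := by
      rw [hs, ← Complex.ofReal_pow, Real.sq_sqrt Real.pi_pos.le]
    have hWe : ∀ e : Fin (n + 1) → ℂ, W.map (MvPolynomial.eval e) * (Qg n).map (MvPolynomial.eval e) *
        (W.map (MvPolynomial.eval e)).transpose = MvPolynomial.eval e c ^ 2 • jm ℂ n := by
      intro e
      rw [← Matrix.transpose_map, ← Matrix.map_mul, ← Matrix.map_mul, hW, ← jm_map (MvPolynomial.eval e)]
      ext i j
      simp [Matrix.smul_apply, smul_eq_mul]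
    have hT : ∀ e : Fin (n + 1) → ℂ, MvPolynomial.eval e c ≠ 0 →
        ((s / MvPolynomial.eval e c) • W.map (MvPolynomial.eval e)) * (Qg n).map (MvPolynomial.eval e) *
          ((s / MvPolynomial.eval e c) • W.map (MvPolynomial.eval e)).transpose = (Real.pi : ℂ) • jm ℂ n := by
      intro e he
      rw [Matrix.transpose_smul, Matrix.smul_mul, Matrix.mul_smul, Matrix.smul_mul, hWe, smul_smul, smul_smul, ← hs2]
      congr 1
      field_simp
    refine ⟨c, hc, ?_⟩
    intro x0 _ hx0 Y0 hY0
    obtain ⟨h1, h2⟩ := tor_sp hn hY0 (hT x0 hx0)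
    set g := mt Y0 * ((s / MvPolynomial.eval x0 c) • W.map (MvPolynomial.eval x0))⁻¹ with hg
    have hev : ∀ x : Fin (n + 1) → ℂ, (fun q : Fin n × Fin n =>
        MvPolynomial.eval x (∑ k, MvPolynomial.C (s * g q.1 k) * W k q.2) / MvPolynomial.eval x c) =
        fun q => (g * ((s / MvPolynomial.eval x c) • W.map (MvPolynomial.eval x))) q.1 q.2 := by
      intro x
      funext q
      rw [Matrix.mul_apply, map_sum, Finset.sum_div]
      refine Finset.sum_congr rfl fun k _ => ?_
      rw [map_mul, MvPolynomial.eval_C, Matrix.smul_apply, Matrix.map_apply, smul_eq_mul]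
      ring
    refine ⟨fun q => ∑ k, MvPolynomial.C (s * g q.1 k) * W k q.2, ?_, ?_⟩
    · intro x _ hx
      rw [hev]
      exact sp_tor h1 (hT x hx)
    · intro q
      have h3 := congrFun (hev x0) q
      rw [h2] at h3
      exact h3

end Pool.Agent.Y890.HE
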